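import Pool.Agent.H21.KneserBridge
import Pool.Agent.H21.KneserMain

set_option autoImplicit false

namespace Pool.Agent.Results.MP_95cf8e_co.AsymptoticClass0
open Pool.Agent.H21 KneserDefs

/-- All Kneser graphs are asymptotically Class 0, uniformly in `m`. -/
theorem result : ∃ C : ℝ, ∀ m t : ℕ, 1 ≤ t → 2 * t + 1 ≤ m →
    (pebblingNumber (kneser m t) : ℝ) ≤ (1 + C / t) * (m.choose t : ℝ) := by
  refine ⟨((30 * 2 ^ 30 + 1 : ℕ) : ℝ), fun m t ht hm => ?_⟩
  obtain ⟨K, hK⟩ : ∃ K : ℕ, K = 30 * 2 ^ 30 := ⟨_, rfl⟩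
  rw [← hK]
  have hn : t ≤ m.choose t := by
    have h1 : (t + 1).choose t ≤ m.choose t := Nat.choose_le_choose _ (by omega)
    rw [Nat.choose_succ_self_right] at h1
    omega
  have h1 : pebblingNumber (kneser m t) ≤ (t + K) * m.choose t / t + 1 := by
    apply Nat.sInf_le
    apply KneserBridge.mem_of
    intro r D hD e
    have h2 := KneserMain.main ht (by simpa using hm) r D hD
    rw [Fintype.card_fin, ← hK, e] at h2
    have h3 := Nat.lt_mul_div_succ ((t + K) * m.choose t) ht
    omega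
  have h2 : t * pebblingNumber (kneser m t) ≤ (t + (K + 1)) * m.choose t := by
    have h3 := Nat.mul_le_mul_left t h1
    have h4 := Nat.mul_div_le ((t + K) * m.choose t) t
    nlinarith
  have ht' : (0 : ℝ) < t := by exact_mod_cast ht
  have h3 : (t : ℝ) * pebblingNumber (kneser m t) ≤ (t + ((K + 1 : ℕ) : ℝ)) * m.choose t := by
    exact_mod_cast h2
  rw [one_add_div ht'.ne', div_mul_eq_mul_div, le_div_iff₀ ht']
  linarith

end Pool.Agent.Results.MP_95cf8e_co.AsymptoticClass0
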